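import Pool.Agent.H23.CoverProof

open Pool.Agent.H23.Cover

theorem Pool.Agent.Results.MP_afd993_co.Counter.result (c : ℝ) (hc : 0 < c) :
    ∃ (k : ℕ) (V W : Type) (_ : Fintype V) (_ : Fintype W) (F : SimpleGraph V)
      (G : SimpleGraph W) (π : W → V), 1 ≤ k ∧ IsCover G F π k ∧
        (domNum G : ℝ) < c * k * domNum F := by
  obtain ⟨m, hm⟩ := exists_nat_gt (4 / c)
  obtain ⟨k, V, W, i1, i2, F, G, π, h1, h2, h3, h4⟩ := main m
  refine ⟨k, V, W, i1, i2, F, G, π, h1, h2, ?_⟩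
  have a1 : (1 : ℝ) ≤ k := by exact_mod_cast h1
  have a3 : (domNum G : ℝ) ≤ 4 * k := by exact_mod_cast h3
  have a4 : (m : ℝ) + 1 ≤ domNum F := by exact_mod_cast h4
  rw [div_lt_iff₀ hc] at hm
  have a5 : 4 < c * domNum F := by nlinarith
  nlinarith
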